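import Pool.Agent.N965.ST.Stm2

/-!
# Base sets (project ST): lists found by computer
-/

set_option autoImplicit false

namespace Pool.Agent.N965.ST

/-- check of a base pair -/
def chkBase (N k q ω : ℕ) (B E : List ℕ) : Bool :=
  chkMod N B k && chkMod N E k && chkInv q N B E && B.contains ω && B.all (fun x => decide (x ≤ ω)) &&
    E.all (fun x => decide (x < ω)) && decide (q < 4)

/-- check of a single set -/
def chkOne (N k ω : ℕ) (B : List ℕ) : Bool :=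
  chkMod N B k && B.contains ω && B.all (fun x => decide (x ≤ ω))

theorem base_6 : chkBase 9 2 1 7 [0, 3, 4, 7]
    [0, 1, 3, 4] = true := by decide +kernel

theorem base_8 : chkBase 9 2 0 8 [0, 3, 5, 8]
    [0, 2, 3, 5] = true := by decide +kernel

theorem base_10 : chkBase 27 3 3 18 [0, 1, 6, 7, 10, 15, 16, 18]
    [0, 1, 6, 7, 9, 10, 15, 16] = true := by decide +kernel

theorem base_12 : chkBase 27 3 1 19 [0, 3, 4, 9, 10, 12, 13, 19]
    [0, 1, 3, 4, 9, 10, 12, 13] = true := by decide +kernel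

theorem base_14 : chkBase 27 3 0 20 [0, 3, 5, 9, 11, 12, 14, 20]
    [0, 2, 3, 5, 9, 11, 12, 14] = true := by decide +kernel

theorem base_27 : chkBase 30 3 1 28 [0, 1, 7, 10, 11, 17, 18, 28]
    [0, 1, 7, 8, 10, 11, 17, 18] = true := by decide +kernel

theorem base_29 : chkBase 30 3 0 29 [0, 3, 5, 8, 21, 24, 26, 29]
    [0, 2, 3, 5, 21, 23, 24, 26] = true := by decide +kernel

theorem base_33 : chkBase 90 4 1 61 [0, 3, 7, 10, 21, 24, 28, 30, 31, 33, 37, 40, 51, 54, 58, 61]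
    [0, 1, 3, 4, 21, 22, 24, 25, 30, 31, 33, 34, 51, 52, 54, 55] = true := by decide +kernel

theorem base_35 : chkBase 90 4 0 62 [0, 3, 8, 11, 21, 24, 29, 30, 32, 33, 38, 41, 51, 54, 59, 62]
    [0, 2, 3, 5, 21, 23, 24, 26, 30, 32, 33, 35, 51, 53, 54, 56] = true := by decide +kernel

theorem base_37 : chkBase 90 4 1 63 [0, 2, 3, 5, 21, 23, 24, 26, 32, 35, 51, 53, 54, 56, 60, 63]
    [0, 2, 3, 5, 21, 23, 24, 26, 30, 32, 33, 35, 51, 53, 54, 56] = true := by decide +kernel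

theorem base_39 : chkBase 90 4 1 64 [0, 3, 10, 13, 21, 24, 30, 31, 33, 34, 40, 43, 51, 54, 61, 64]
    [0, 1, 3, 4, 21, 22, 24, 25, 30, 31, 33, 34, 51, 52, 54, 55] = true := by decide +kernel

theorem base_41 : chkBase 90 4 0 65 [0, 3, 11, 14, 21, 24, 30, 32, 33, 35, 41, 44, 51, 54, 62, 65]
    [0, 2, 3, 5, 21, 23, 24, 26, 30, 32, 33, 35, 51, 53, 54, 56] = true := by decide +kernel

theorem base_43 : chkBase 90 4 0 66 [0, 7, 9, 10, 17, 19, 26, 30, 36, 37, 39, 40, 47, 49, 56, 66]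
    [0, 7, 9, 10, 16, 17, 19, 26, 30, 37, 39, 40, 46, 47, 49, 56] = true := by decide +kernel

theorem base_45 : chkBase 90 4 1 67 [0, 3, 13, 16, 21, 24, 30, 33, 34, 37, 43, 46, 51, 54, 64, 67]
    [0, 1, 3, 4, 21, 22, 24, 25, 30, 31, 33, 34, 51, 52, 54, 55] = true := by decide +kernel

theorem base_47 : chkBase 90 4 0 68 [0, 3, 14, 17, 21, 24, 30, 33, 35, 38, 44, 47, 51, 54, 65, 68]
    [0, 2, 3, 5, 21, 23, 24, 26, 30, 32, 33, 35, 51, 53, 54, 56] = true := by decide +kernel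

theorem base_49 : chkBase 90 4 1 69 [0, 2, 3, 9, 13, 20, 22, 29, 30, 33, 43, 50, 52, 59, 62, 69]
    [0, 2, 3, 9, 13, 20, 22, 29, 30, 33, 39, 43, 50, 52, 59, 62] = true := by decide +kernel

theorem base_51 : chkBase 90 4 1 70 [0, 3, 16, 19, 21, 24, 30, 33, 37, 40, 46, 49, 51, 54, 67, 70]
    [0, 1, 3, 4, 21, 22, 24, 25, 30, 31, 33, 34, 51, 52, 54, 55] = true := by decide +kernel

theorem base_53 : chkBase 90 4 0 71 [0, 3, 17, 20, 21, 24, 30, 33, 38, 41, 47, 50, 51, 54, 68, 71]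
    [0, 2, 3, 5, 21, 23, 24, 26, 30, 32, 33, 35, 51, 53, 54, 56] = true := by decide +kernel

theorem base_55 : chkBase 90 4 2 72 [0, 9, 14, 17, 30, 33, 35, 38, 39, 42, 44, 47, 63, 65, 68, 72]
    [0, 3, 9, 12, 14, 17, 33, 35, 38, 42, 44, 47, 60, 65, 68, 69] = true := by decide +kernel

theorem base_57 : chkBase 90 4 1 73 [0, 3, 19, 21, 22, 24, 30, 33, 40, 43, 49, 51, 52, 54, 70, 73]
    [0, 1, 3, 4, 21, 22, 24, 25, 30, 31, 33, 34, 51, 52, 54, 55] = true := by decide +kernel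

theorem base_59 : chkBase 90 4 0 74 [0, 3, 20, 21, 23, 24, 30, 33, 41, 44, 50, 51, 53, 54, 71, 74]
    [0, 2, 3, 5, 21, 23, 24, 26, 30, 32, 33, 35, 51, 53, 54, 56] = true := by decide +kernel

theorem base_61 : chkBase 90 4 0 75 [0, 3, 9, 10, 12, 13, 31, 34, 61, 63, 64, 66, 70, 72, 73, 75]
    [0, 3, 10, 13, 21, 24, 31, 34, 51, 54, 60, 61, 63, 64, 70, 73] = true := by decide +kernel

theorem base_63 : chkBase 90 4 1 76 [0, 3, 21, 22, 24, 25, 30, 33, 43, 46, 51, 52, 54, 55, 73, 76]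
    [0, 1, 3, 4, 21, 22, 24, 25, 30, 31, 33, 34, 51, 52, 54, 55] = true := by decide +kernel

theorem base_65 : chkBase 90 4 0 77 [0, 3, 21, 23, 24, 26, 30, 33, 44, 47, 51, 53, 54, 56, 74, 77]
    [0, 2, 3, 5, 21, 23, 24, 26, 30, 32, 33, 35, 51, 53, 54, 56] = true := by decide +kernel

theorem base_67 : chkBase 90 4 0 78 [0, 1, 10, 21, 27, 30, 31, 34, 40, 43, 48, 51, 57, 64, 73, 78]
    [0, 1, 3, 9, 10, 12, 30, 31, 34, 39, 40, 42, 43, 63, 64, 73] = true := by decide +kernel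

theorem base_69 : chkBase 90 4 1 79 [0, 3, 21, 24, 25, 28, 30, 33, 46, 49, 51, 54, 55, 58, 76, 79]
    [0, 1, 3, 4, 21, 22, 24, 25, 30, 31, 33, 34, 51, 52, 54, 55] = true := by decide +kernel

theorem base_71 : chkBase 90 4 0 80 [0, 3, 21, 24, 26, 29, 30, 33, 47, 50, 51, 54, 56, 59, 77, 80]
    [0, 2, 3, 5, 21, 23, 24, 26, 30, 32, 33, 35, 51, 53, 54, 56] = true := by decide +kernel

theorem base_73 : chkBase 90 4 1 81 [0, 3, 11, 14, 20, 23, 30, 33, 34, 41, 44, 50, 51, 53, 64, 81]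
    [0, 1, 3, 4, 11, 14, 20, 23, 30, 31, 33, 34, 41, 44, 50, 53] = true := by decide +kernel

theorem base_75 : chkBase 90 4 1 82 [0, 3, 21, 24, 28, 30, 31, 33, 49, 51, 52, 54, 58, 61, 79, 82]
    [0, 1, 3, 4, 21, 22, 24, 25, 30, 31, 33, 34, 51, 52, 54, 55] = true := by decide +kernel

theorem base_77 : chkBase 90 4 0 83 [0, 3, 21, 24, 29, 30, 32, 33, 50, 51, 53, 54, 59, 62, 80, 83]
    [0, 2, 3, 5, 21, 23, 24, 26, 30, 32, 33, 35, 51, 53, 54, 56] = true := by decide +kernel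

theorem base_91 : chkBase 98 4 0 94 [0, 3, 9, 11, 12, 14, 20, 23, 71, 74, 80, 82, 83, 85, 91, 94]
    [0, 3, 8, 9, 11, 12, 17, 20, 71, 74, 79, 80, 82, 83, 88, 91] = true := by decide +kernel

theorem base_93 : chkBase 96 4 1 94 [0, 6, 21, 27, 28, 34, 39, 45, 49, 55, 60, 66, 67, 73, 88, 94]
    [0, 1, 6, 7, 21, 22, 27, 28, 39, 40, 45, 46, 60, 61, 66, 67] = true := by decide +kernel

theorem base_95 : chkBase 96 4 0 95 [0, 6, 21, 27, 29, 35, 39, 45, 50, 56, 60, 66, 68, 74, 89, 95]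
    [0, 2, 6, 8, 21, 23, 27, 29, 39, 41, 45, 47, 60, 62, 66, 68] = true := by decide +kernel

theorem one_0 : chkOne 3 1 1 [0, 1] = true := by decide +kernel

theorem one_2 : chkOne 3 1 2 [0, 2] = true := by decide +kernel

theorem one_4 : chkOne 9 2 6 [0, 2, 5, 6] = true := by decide +kernel

theorem one_7 : chkOne 10 2 8 [0, 1, 7, 8] = true := by decide +kernel

theorem one_13 : chkOne 30 3 21 [0, 1, 3, 4, 10, 13, 14, 21] = true := by decide +kernel

theorem one_17 : chkOne 28 3 22 [0, 4, 5, 9, 15, 17, 20, 22] = true := by decide +kernel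

theorem one_19 : chkOne 28 3 23 [0, 1, 3, 4, 19, 20, 22, 23] = true := by decide +kernel

theorem one_21 : chkOne 30 3 25 [0, 1, 3, 4, 21, 22, 24, 25] = true := by decide +kernel

theorem one_23 : chkOne 30 3 26 [0, 2, 3, 5, 21, 23, 24, 26] = true := by decide +kernel

theorem one_25 : chkOne 32 3 28 [0, 2, 3, 5, 23, 25, 26, 28] = true := by decide +kernel

theorem one_31 : chkOne 34 3 32 [0, 3, 4, 7, 25, 28, 29, 32] = true := by decide +kernel

end Pool.Agent.N965.ST
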