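import Pool.Agent.N965.ST.Stm2

/-!
# Soundness of the check of the states, project ST (helper744)
-/

set_option autoImplicit false

namespace Pool.Agent.N965.ST

namespace ChkInv

theorem fold_bit (l : List ℕ) (i : ℕ) : ∀ a0 : ℕ,
    (l.foldl (fun a p => a ||| (1 <<< p)) a0).testBit i = true → a0.testBit i = true ∨ i ∈ l := by
  induction l with
  | nil => intro a0 h; exact Or.inl h
  | cons p l ih =>
    intro a0 h
    rcases ih _ h with h1 | h1
    · rw [Nat.testBit_or, Bool.or_eq_true] at h1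
      rcases h1 with h1 | h1
      · exact Or.inl h1
      · rw [Nat.one_shiftLeft, Nat.testBit_two_pow, decide_eq_true_eq] at h1
        subst h1
        exact Or.inr List.mem_cons_self
    · exact Or.inr (List.mem_cons_of_mem _ h1)

theorem mod_lt {N k : ℕ} {A : List ℕ} (h : chkMod N A k = true) : 0 < N ∧ ∀ x ∈ A, x < N := by
  unfold chkMod at h
  simp only [Bool.and_eq_true, decide_eq_true_eq, List.all_eq_true] at h
  exact ⟨h.1.1.1.1.1.1, h.1.1.1.1.1.2⟩

theorem mask_bit {N : ℕ} {strict : Bool} {X Y : List ℕ} {i : ℕ}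
    (h : (mask N strict X Y).testBit i = true) :
    ∃ p ∈ X, ∃ q ∈ Y, (if strict then q < p else q ≤ p) ∧ (2 * p + N - q) % N = i := by
  unfold mask at h
  rcases fold_bit _ _ _ h with h1 | h1
  · simp at h1
  · rw [List.mem_flatMap] at h1
    obtain ⟨p, hp, h2⟩ := h1
    rw [List.mem_map] at h2
    obtain ⟨q, hq, h3⟩ := h2
    rw [List.mem_filter] at hq
    refine ⟨p, hp, q, hq.1, ?_, h3⟩
    have h4 := hq.2
    cases strict <;> simpa using h4

theorem dvd_of (N : ℕ) (hN : 0 < N) (x : ℤ) (j p q : ℕ) (hq : q < N)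
    (h : (2 * p + N - q) % N = ((x % N).toNat + N - 1 + j) % N) :
    (N : ℤ) ∣ (x - 1 + j) - (2 * (p : ℤ) - q) := by
  have h0 : 0 ≤ x % (N : ℤ) := Int.emod_nonneg _ (by omega)
  have h1 : ((x % N).toNat : ℤ) = x % N := Int.toNat_of_nonneg h0
  have h2 : (((x % N).toNat + N - 1 + j : ℕ) : ℤ) = x % N + N - 1 + j := by omega
  have h3 : ((2 * p + N - q : ℕ) : ℤ) = 2 * p + N - q := by omega
  have h4 : (((x % N).toNat + N - 1 + j : ℕ) : ℤ) % N = ((2 * p + N - q : ℕ) : ℤ) % N := by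
    exact_mod_cast h.symm
  rw [h2, h3] at h4
  have h5 : (N : ℤ) ∣ (x % N + N - 1 + j) - (2 * p + N - q) :=
    Int.dvd_of_emod_eq_zero (Int.emod_eq_emod_iff_emod_sub_eq_zero.1 h4)
  have h6 : (x - 1 + j) - (2 * (p : ℤ) - q) =
      ((x % N + N - 1 + j) - (2 * p + N - q)) + N * (x / N) := by
    have := Int.emod_add_mul_ediv x N
    linarith
  rw [h6]
  exact dvd_add h5 (dvd_mul_right _ _)

theorem cl {N : ℕ} (hN : 0 < N) {X Y : List ℕ} (hY : ∀ q ∈ Y, q < N) {x : ℤ} {j : ℕ}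
    (h : (mask N false X Y).testBit (((x % N).toNat + N - 1 + j) % N) = true) :
    CL N X.toFinset Y.toFinset (x - 1 + j) := by
  obtain ⟨p, hp, q, hq, hpq, hi⟩ := mask_bit h
  exact ⟨p, List.mem_toFinset.2 hp, q, List.mem_toFinset.2 hq, by simpa using hpq,
    dvd_of N hN x j p q (hY q hq) hi⟩

theorem cs {N : ℕ} (hN : 0 < N) {X Y : List ℕ} (hY : ∀ q ∈ Y, q < N) {x : ℤ} {j : ℕ}
    (h : (mask N true X Y).testBit (((x % N).toNat + N - 1 + j) % N) = true) :
    CS N X.toFinset Y.toFinset (x - 1 + j) := by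
  obtain ⟨p, hp, q, hq, hpq, hi⟩ := mask_bit h
  exact ⟨p, List.mem_toFinset.2 hp, q, List.mem_toFinset.2 hq, by simpa using hpq,
    dvd_of N hN x j p q (hY q hq) hi⟩

end ChkInv

theorem chkInv_proof : S_CHKINV := by
  intro q N k B E hB hE h x
  obtain ⟨hN, hB'⟩ := ChkInv.mod_lt hB
  obtain ⟨-, hE'⟩ := ChkInv.mod_lt hE
  unfold chkInv at h
  simp only [List.all_eq_true, List.any_eq_true, List.mem_range] at h
  have h0 : 0 ≤ x % (N : ℤ) := Int.emod_nonneg _ (by omega)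
  have h1 : x % (N : ℤ) < N := Int.emod_lt_of_pos _ (by exact_mod_cast hN)
  obtain ⟨τ, hτ, h2⟩ := h (x % N).toNat (by omega)
  refine ⟨τ, hτ, fun j hj k hk hbit => ?_⟩
  have h3 := h2 j hj k hk
  rw [hbit, Bool.not_true, Bool.false_or] at h3
  interval_cases k
  · exact ChkInv.cl hN hB' h3
  · exact ChkInv.cs hN hB' h3
  · exact ChkInv.cl hN hE' h3
  · exact ChkInv.cs hN hE' h3
  · exact ChkInv.cs hN hE' h3

end Pool.Agent.N965.ST
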