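import Pool.Agent.N965.ST.Stm2

/-!
# Soundness of the check of modular sets (project ST, MP_a323b2_co)
-/

set_option autoImplicit false

namespace Pool.Agent.N965.ST

/-- the bits of a mask built by a fold -/
theorem testBit_foldl (l : List ℕ) (a0 i : ℕ)
    (h : (l.foldl (fun a p => a ||| (1 <<< p)) a0).testBit i = true) :
    a0.testBit i = true ∨ i ∈ l := by
  induction l generalizing a0 with
  | nil => exact Or.inl h
  | cons p l ih =>
    rw [List.foldl_cons] at h
    rcases ih _ h with h | h
    · rw [Nat.testBit_or, Bool.or_eq_true] at h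
      rcases h with h | h
      · exact Or.inl h
      · right
        rw [Nat.one_shiftLeft, Nat.testBit_two_pow] at h
        have h' : p = i := by simpa using h
        simp [h']
    · exact Or.inr (List.mem_cons_of_mem _ h)

theorem chkMod_proof : S_CHKMOD := by
  intro N k A h
  unfold chkMod at h
  simp only [Bool.and_eq_true, List.all_eq_true, decide_eq_true_eq] at h
  obtain ⟨⟨⟨⟨⟨⟨hpos, hlt⟩, hzero⟩, hpw⟩, hlen⟩, hfree⟩, hcov⟩ := h
  have hnd : A.Nodup := hpw.imp (fun h => ne_of_lt h)
  have hN : (0 : ℤ) < (N : ℤ) := by exact_mod_cast hpos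
  refine ⟨hpos, ?_, ?_, ?_, ?_, ?_⟩
  · intro x hx
    exact hlt x (List.mem_toFinset.1 hx)
  · rw [List.mem_toFinset]
    simpa using hzero
  · rw [List.toFinset_card_of_nodup hnd, hlen]
  · intro x hx y hy z hz hd
    rw [List.mem_toFinset] at hx hy hz
    have h1 := hfree x hx y hy z hz
    have h2 : (x + z) % N = (2 * y) % N := by
      have h3 : ((x + z : ℕ) : ℤ) ≡ ((2 * y : ℕ) : ℤ) [ZMOD (N : ℤ)] := by
        apply Int.ModEq.symm
        rw [Int.modEq_iff_dvd]
        push_cast
        exact hd
      exact (Int.natCast_modEq_iff.1 h3)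
    simp only [Bool.or_eq_true, Bool.not_eq_true', beq_eq_false_iff_ne, ne_eq, h2,
      not_true_eq_false, false_or, Bool.and_eq_true, beq_iff_eq] at h1
    exact h1
  · intro x
    have hx0 : 0 ≤ x % (N : ℤ) := Int.emod_nonneg _ hN.ne'
    have hx1 : x % (N : ℤ) < N := Int.emod_lt_of_pos _ hN
    obtain ⟨x0, hx0'⟩ := Int.eq_ofNat_of_zero_le hx0
    have hx2 : x0 < N := by
      rw [hx0'] at hx1
      exact_mod_cast hx1
    have hxd : (N : ℤ) ∣ x - x0 := by
      have := Int.dvd_self_sub_emod (x := x) (m := (N : ℤ))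
      rwa [hx0'] at this
    have hc := hcov x0 (List.mem_range.2 hx2)
    rw [Bool.or_eq_true] at hc
    rcases hc with hc | hc
    · left
      refine ⟨x0, ?_, hxd⟩
      rw [List.mem_toFinset]
      simpa using hc
    · right
      rcases testBit_foldl _ _ _ hc with h0 | h0
      · simp at h0
      · rw [List.mem_flatMap] at h0
        obtain ⟨y, hy, h0⟩ := h0
        rw [List.mem_map] at h0
        obtain ⟨z, hz, h0⟩ := h0
        rw [List.mem_filter, decide_eq_true_eq] at hz
        refine ⟨y, List.mem_toFinset.2 hy, z, List.mem_toFinset.2 hz.1, hz.2, ?_⟩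
        have hz' : z ≤ 2 * y + N := by
          have := hz.2
          omega
        have h4 : (N : ℤ) ∣ ((2 * y + N - z : ℕ) : ℤ) - x0 := by
          rw [← h0]
          push_cast
          exact Int.dvd_self_sub_emod
        rw [Nat.cast_sub hz'] at h4
        push_cast at h4
        have h5 : x + z - 2 * y = (x - x0) - ((2 * y + N - z) - x0) + N := by ring
        rw [h5]
        exact dvd_add (dvd_sub hxd h4) (dvd_refl _)

end Pool.Agent.N965.ST
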