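import Pool.Agent.N965.ST.Stm

/-!
# Statements of the leaves, project ST
-/

set_option autoImplicit false

namespace Pool.Agent.N965.ST

/-- the `m`-th element of the Stanley sequence of `{0}`: the binary digits of `m` read in base `3` -/
def sq (m : ℕ) : ℕ := Nat.ofDigits 3 (Nat.digits 2 m)

/-- LEAF DIG -/
structure S_DIG : Prop where
  zero : sq 0 = 0
  mono : StrictMono sq
  free : ∀ i j k : ℕ, sq i + sq k = 2 * sq j → i = j ∧ j = k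
  cover : ∀ X : ℕ, (∃ m, sq m = X) ∨ ∃ i j : ℕ, i < j ∧ sq i + X = 2 * sq j
  add : ∀ j m : ℕ, m < 2 ^ j → sq (2 ^ j + m) = 3 ^ j + sq m
  last : ∀ j : ℕ, 2 * sq (2 ^ j - 1) + 1 = 3 ^ j

/-- LEAF SEQ (with DIG as hypothesis) -/
def S_SEQ' : Prop := S_DIG → S_SEQ

/-- the lifted set `(3 B + s) ∪ (3 E + r)` -/
def lift (s r : ℕ) (B E : Finset ℕ) : Finset ℕ :=
  B.image (fun b => 3 * b + s) ∪ E.image (fun e => 3 * e + r)

/-- LEAF LIFT -/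
def S_LIFT : Prop := ∀ (N k s r t : ℕ) (B E : Finset ℕ), ModSet N B k → ModSet N E k →
  s < 3 → r < 3 → t < 3 → s ≠ r → t ≠ s → t ≠ r → (s = 0 ∨ r = 0) →
  (∀ u : ℤ, ∃ y ∈ lift s r B E, ∃ z ∈ lift s r B E, z < y ∧
    ((3 * N : ℕ) : ℤ) ∣ (3 * u + t) + z - 2 * y) →
  ModSet (3 * N) (lift s r B E) (k + 1)

/-- LEAF INV: the transitions of the states -/
structure S_INV : Prop where
  one : ∀ (q N k : ℕ) (B E : Finset ℕ), q < 4 → ModSet N E k → Inv q N B E →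
    Inv 1 (3 * N) (lift 1 0 B E) (lift 0 1 E E)
  two : ∀ (q N k : ℕ) (B E : Finset ℕ), q < 4 → ModSet N E k → Inv q N B E →
    Inv 0 (3 * N) (lift 2 0 B E) (lift 0 2 E E)
  zero02 : ∀ (q N k : ℕ) (B E : Finset ℕ), (q = 0 ∨ q = 3) → ModSet N E k → Inv q N B E →
    Inv 1 (3 * N) (lift 0 2 B E) (lift 0 2 E E)
  zero1 : ∀ (N k : ℕ) (B E : Finset ℕ), ModSet N E k → Inv 1 N B E →
    Inv 0 (3 * N) (lift 0 1 B E) (lift 0 1 E E)
  zero2 : ∀ (N k : ℕ) (B E : Finset ℕ), ModSet N E k → Inv 2 N B E →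
    Inv 3 (3 * N) (lift 0 1 B E) (lift 0 1 E E)

end Pool.Agent.N965.ST
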