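import Mathlib
import Pool.Agent.N965.ST.Stm2

set_option autoImplicit false

namespace Pool.Agent.N965.ST

namespace Dig

theorem sq0 : sq 0 = 0 := by simp [sq]

theorem sqr (m b : ℕ) (hb : b < 2) : sq (2 * m + b) = 3 * sq m + b := by
  by_cases h : 2 * m + b = 0
  · have hm : m = 0 := by omega
    have hb0 : b = 0 := by omega
    subst hm; subst hb0; simp [sq]
  · unfold sq
    rw [Nat.digits_def' (by norm_num) (by omega : 0 < 2 * m + b)]
    have h1 : (2 * m + b) % 2 = b := by omega
    have h2 : (2 * m + b) / 2 = m := by omega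
    rw [h1, h2, Nat.ofDigits_cons]
    ring

theorem dec (i : ℕ) : ∃ m b, b < 2 ∧ i = 2 * m + b := ⟨i / 2, i % 2, by omega, by omega⟩

theorem sqlt : ∀ j i : ℕ, i < j → sq i < sq j := by
  intro j
  induction j using Nat.strong_induction_on with
  | _ j ih =>
    intro i hij
    obtain ⟨m, b, hb, rfl⟩ := dec i
    obtain ⟨n, c, hc, rfl⟩ := dec j
    rw [sqr m b hb, sqr n c hc]
    rcases Nat.lt_or_ge m n with h | h
    · have := ih n (by omega) m h
      omega
    · have : m = n := by omega
      subst this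
      omega

theorem sqfree : ∀ N i j k : ℕ, i + j + k ≤ N → sq i + sq k = 2 * sq j → i = j ∧ j = k := by
  intro N
  induction N with
  | zero => intro i j k h _; omega
  | succ N ih =>
    intro i j k h e
    by_cases h0 : i + j + k = 0
    · omega
    obtain ⟨i', bi, hbi, rfl⟩ := dec i
    obtain ⟨j', bj, hbj, rfl⟩ := dec j
    obtain ⟨k', bk, hbk, rfl⟩ := dec k
    rw [sqr _ _ hbi, sqr _ _ hbj, sqr _ _ hbk] at e
    have h1 : bi + bk = 2 * bj := by omega
    have := ih i' j' k' (by omega) (by omega)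
    omega

theorem sqcover : ∀ X : ℕ, (∃ m, sq m = X) ∨ ∃ i j : ℕ, i < j ∧ sq i + X = 2 * sq j := by
  intro X
  induction X using Nat.strong_induction_on with
  | _ X ih =>
    by_cases h0 : X = 0
    · left; exact ⟨0, by rw [h0]; exact sq0⟩
    obtain ⟨Y, c, hc, rfl⟩ : ∃ Y c, c < 3 ∧ X = 3 * Y + c := ⟨X / 3, X % 3, by omega, by omega⟩
    rcases ih Y (by omega) with ⟨m, hm⟩ | ⟨i, j, hij, e⟩
    · rcases Nat.lt_or_ge c 2 with h | h
      · left; exact ⟨2 * m + c, by rw [sqr _ _ h, hm]⟩
      · right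
        have : c = 2 := by omega
        subst this
        refine ⟨2 * m + 0, 2 * m + 1, by omega, ?_⟩
        rw [sqr _ _ (by norm_num), sqr _ _ (by norm_num), hm]
        ring
    · right
      rcases Nat.lt_or_ge c 2 with h | h
      · refine ⟨2 * i + c, 2 * j + c, by omega, ?_⟩
        rw [sqr _ _ h, sqr _ _ h]
        omega
      · have : c = 2 := by omega
        subst this
        refine ⟨2 * i + 0, 2 * j + 1, by omega, ?_⟩
        rw [sqr _ _ (by norm_num), sqr _ _ (by norm_num)]
        omega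

theorem sqadd : ∀ j m : ℕ, m < 2 ^ j → sq (2 ^ j + m) = 3 ^ j + sq m := by
  intro j
  induction j with
  | zero =>
    intro m hm
    have : m = 0 := by simpa using hm
    subst this
    have h1 := sqr 0 1 (by norm_num)
    simp only [mul_zero, zero_add] at h1
    simp [h1, sq0]
  | succ j ih =>
    intro m hm
    obtain ⟨n, b, hb, rfl⟩ := dec m
    have hn : n < 2 ^ j := by rw [pow_succ] at hm; omega
    have e : 2 ^ (j + 1) + (2 * n + b) = 2 * (2 ^ j + n) + b := by rw [pow_succ]; ring
    rw [e, sqr _ _ hb, sqr _ _ hb, ih n hn, pow_succ]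
    ring

theorem sqlast : ∀ j : ℕ, 2 * sq (2 ^ j - 1) + 1 = 3 ^ j := by
  intro j
  induction j with
  | zero => simp [sq0]
  | succ j ih =>
    have hp : 0 < 2 ^ j := by positivity
    have e : 2 ^ (j + 1) - 1 = 2 * (2 ^ j - 1) + 1 := by rw [pow_succ]; omega
    rw [e, sqr _ _ (by norm_num), pow_succ, ← ih]
    ring

end Dig

theorem dig_proof : S_DIG where
  zero := Dig.sq0
  mono := fun i j h => Dig.sqlt j i h
  free := fun i j k e => Dig.sqfree (i + j + k) i j k le_rfl e
  cover := Dig.sqcover
  add := Dig.sqadd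
  last := Dig.sqlast

end Pool.Agent.N965.ST
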