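import Pool.Agent.N965.ST.Base

/-!
# Assembly (project ST)
-/

set_option autoImplicit false

namespace Pool.Agent.N965.ST

section step

variable {N k ω : ℕ} {B E : Finset ℕ}

lemma mem_lift_left {s r b : ℕ} (h : b ∈ B) : 3 * b + s ∈ lift s r B E := by
  unfold lift
  exact Finset.mem_union_left _ (Finset.mem_image_of_mem _ h)

lemma mem_lift_right {s r e : ℕ} (h : e ∈ E) : 3 * e + r ∈ lift s r B E := by
  unfold lift
  exact Finset.mem_union_right _ (Finset.mem_image_of_mem (fun e => 3 * e + r) h)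

lemma mem_lift {s r x : ℕ} (h : x ∈ lift s r B E) :
    (∃ b ∈ B, x = 3 * b + s) ∨ ∃ e ∈ E, x = 3 * e + r := by
  unfold lift at h
  rcases Finset.mem_union.1 h with h | h
  · obtain ⟨b, hb, rfl⟩ := Finset.mem_image.1 h
    exact Or.inl ⟨b, hb, rfl⟩
  · obtain ⟨b, hb, rfl⟩ := Finset.mem_image.1 h
    exact Or.inr ⟨b, hb, rfl⟩

/-- cover in the form of `CL` -/
lemma cl_self (h : ModSet N E k) (x : ℤ) : CL N E E x := by
  rcases h.cover x with ⟨a, ha, hd⟩ | ⟨y, hy, z, hz, hlt, hd⟩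
  · exact ⟨a, ha, a, ha, le_rfl, by convert hd using 1; ring⟩
  · exact ⟨y, hy, z, hz, hlt.le, by convert hd using 1; ring⟩

/-- a pair `p ∈ X`, `q ∈ Y` gives the cross cover -/
lemma cross_of {M : ℕ} {X : Finset ℕ} {p q : ℕ} {x : ℤ} (hp : p ∈ X) (hq : q ∈ X) (hlt : q < p)
    (hd : (M : ℤ) ∣ x - (2 * (p : ℤ) - q)) :
    ∃ y ∈ X, ∃ z ∈ X, z < y ∧ (M : ℤ) ∣ x + z - 2 * y :=
  ⟨p, hp, q, hq, hlt, by convert hd using 1; ring⟩

/-- the reference set -/
lemma lift_ref (hL : S_LIFT) (h : ModSet N E k) {c : ℕ} (hc : c = 1 ∨ c = 2) :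
    ModSet (3 * N) (lift 0 c E E) (k + 1) := by
  rcases hc with rfl | rfl
  · refine hL N k 0 1 2 E E h h (by norm_num) (by norm_num) (by norm_num) (by norm_num) (by norm_num)
      (by norm_num) (Or.inl rfl) ?_
    intro u
    obtain ⟨p, hp, q, hq, hle, m, hm⟩ := cl_self h u
    refine cross_of (mem_lift_right (s := 0) (B := E) hp) (mem_lift_left (r := 1) (E := E) hq) (by omega) ?_
    refine ⟨m, ?_⟩
    push_cast
    linear_combination 3 * hm
  · refine hL N k 0 2 1 E E h h (by norm_num) (by norm_num) (by norm_num) (by norm_num) (by norm_num)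
      (by norm_num) (Or.inl rfl) ?_
    intro u
    obtain ⟨p, hp, q, hq, hle, m, hm⟩ := cl_self h (u - 1)
    refine cross_of (mem_lift_right (s := 0) (B := E) hp) (mem_lift_left (r := 2) (E := E) hq) (by omega) ?_
    refine ⟨m, ?_⟩
    push_cast
    linear_combination 3 * hm

/-- the bits of the state at the centre -/
lemma bit_of {τ : ℕ} {x : ℤ} (h : Tri N B E τ x) {j k' : ℕ} (hj : j < 3) (hk : k' < 5)
    (hb : τ.testBit (14 - 5 * j - k') = true) : Comp N B E k' (x - 1 + j) := h j hj k' hk hb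

/-- finite check: the cross cover in the state `q` -/
lemma chk_cross_1 : ∀ q < 4, ∀ τ ∈ st q, (τ.testBit 3 = true ∨ τ.testBit 7 = true) := by
  decide

lemma chk_cross_2 : ∀ q < 4, ∀ τ ∈ st q, (τ.testBit 3 = true ∨ τ.testBit 12 = true) := by
  decide

lemma chk_cross_02 : ∀ q < 4, q = 0 ∨ q = 3 → ∀ τ ∈ st q, (τ.testBit 14 = true ∨ τ.testBit 1 = true) := by
  decide

lemma chk_cross_01 : ∀ q < 4, q = 1 ∨ q = 2 → ∀ τ ∈ st q, (τ.testBit 9 = true ∨ τ.testBit 1 = true) := by
  decide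

/-- the pair part of a step -/
lemma gpair_step {s r c : ℕ} (hp : GPair N k ω B E) (hs : s < 3) (hr : r < 3) (hc : c < 3)
    (h1 : ModSet (3 * N) (lift s r B E) (k + 1)) (h2 : ModSet (3 * N) (lift 0 c E E) (k + 1)) :
    GPair (3 * N) (k + 1) (3 * ω + s) (lift s r B E) (lift 0 c E E) where
  hB := h1
  hE := h2
  mem := mem_lift_left hp.mem
  max := by
    intro x hx
    rcases mem_lift hx with ⟨b, hb, rfl⟩ | ⟨e, he, rfl⟩
    · have := hp.max b hb
      omega
    · have := hp.lt e he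
      omega
  lt := by
    intro x hx
    rcases mem_lift hx with ⟨b, hb, rfl⟩ | ⟨e, he, rfl⟩
    · have := hp.lt b hb
      omega
    · have := hp.lt e he
      omega

lemma mod_one (hL : S_LIFT) {q : ℕ} (hq : q < 4) (hp : GPair N k ω B E) (hi : Inv q N B E) :
    ModSet (3 * N) (lift 1 0 B E) (k + 1) := by
  refine hL N k 1 0 2 B E hp.hB hp.hE (by norm_num) (by norm_num) (by norm_num) (by norm_num)
    (by norm_num) (by norm_num) (Or.inr rfl) ?_
  intro u
  obtain ⟨τ, hτ, ht⟩ := hi u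
  rcases chk_cross_1 q hq τ hτ with hb | hb
  · obtain ⟨p, hp', q', hq', hlt, m, hm⟩ : CS N E B (u - 1 + (2 : ℕ)) :=
      bit_of ht (j := 2) (k' := 1) (by norm_num) (by norm_num) hb
    refine cross_of (mem_lift_right hp') (mem_lift_left hq') (by omega) ⟨m, ?_⟩
    push_cast at hm ⊢
    linear_combination 3 * hm
  · obtain ⟨p, hp', q', hq', hlt, m, hm⟩ : CL N B E (u - 1 + (1 : ℕ)) :=
      bit_of ht (j := 1) (k' := 2) (by norm_num) (by norm_num) hb
    refine cross_of (mem_lift_left hp') (mem_lift_right hq') (by omega) ⟨m, ?_⟩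
    push_cast at hm ⊢
    linear_combination 3 * hm

lemma mod_two (hL : S_LIFT) {q : ℕ} (hq : q < 4) (hp : GPair N k ω B E) (hi : Inv q N B E) :
    ModSet (3 * N) (lift 2 0 B E) (k + 1) := by
  refine hL N k 2 0 1 B E hp.hB hp.hE (by norm_num) (by norm_num) (by norm_num) (by norm_num)
    (by norm_num) (by norm_num) (Or.inr rfl) ?_
  intro u
  obtain ⟨τ, hτ, ht⟩ := hi u
  rcases chk_cross_2 q hq τ hτ with hb | hb
  · obtain ⟨p, hp', q', hq', hlt, m, hm⟩ : CS N E B (u - 1 + (2 : ℕ)) :=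
      bit_of ht (j := 2) (k' := 1) (by norm_num) (by norm_num) hb
    refine cross_of (mem_lift_right hp') (mem_lift_left hq') (by omega) ⟨m, ?_⟩
    push_cast at hm ⊢
    linear_combination 3 * hm
  · obtain ⟨p, hp', q', hq', hlt, m, hm⟩ : CL N B E (u - 1 + (0 : ℕ)) :=
      bit_of ht (j := 0) (k' := 2) (by norm_num) (by norm_num) hb
    refine cross_of (mem_lift_left hp') (mem_lift_right hq') (by omega) ⟨m, ?_⟩
    push_cast at hm ⊢
    linear_combination 3 * hm

lemma mod_zero2 (hL : S_LIFT) {q : ℕ} (hq : q = 0 ∨ q = 3) (hp : GPair N k ω B E)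
    (hi : Inv q N B E) : ModSet (3 * N) (lift 0 2 B E) (k + 1) := by
  refine hL N k 0 2 1 B E hp.hB hp.hE (by norm_num) (by norm_num) (by norm_num) (by norm_num)
    (by norm_num) (by norm_num) (Or.inl rfl) ?_
  intro u
  obtain ⟨τ, hτ, ht⟩ := hi u
  rcases chk_cross_02 q (by omega) hq τ hτ with hb | hb
  · obtain ⟨p, hp', q', hq', hlt, m, hm⟩ : CL N E B (u - 1 + (0 : ℕ)) :=
      bit_of ht (j := 0) (k' := 0) (by norm_num) (by norm_num) hb
    refine cross_of (mem_lift_right hp') (mem_lift_left hq') (by omega) ⟨m, ?_⟩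
    push_cast at hm ⊢
    linear_combination 3 * hm
  · obtain ⟨p, hp', q', hq', hlt, m, hm⟩ : CS N B E (u - 1 + (2 : ℕ)) :=
      bit_of ht (j := 2) (k' := 3) (by norm_num) (by norm_num) hb
    refine cross_of (mem_lift_left hp') (mem_lift_right hq') (by omega) ⟨m, ?_⟩
    push_cast at hm ⊢
    linear_combination 3 * hm

lemma mod_zero1 (hL : S_LIFT) {q : ℕ} (hq : q = 1 ∨ q = 2) (hp : GPair N k ω B E)
    (hi : Inv q N B E) : ModSet (3 * N) (lift 0 1 B E) (k + 1) := by
  refine hL N k 0 1 2 B E hp.hB hp.hE (by norm_num) (by norm_num) (by norm_num) (by norm_num)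
    (by norm_num) (by norm_num) (Or.inl rfl) ?_
  intro u
  obtain ⟨τ, hτ, ht⟩ := hi u
  rcases chk_cross_01 q (by omega) hq τ hτ with hb | hb
  · obtain ⟨p, hp', q', hq', hlt, m, hm⟩ : CL N E B (u - 1 + (1 : ℕ)) :=
      bit_of ht (j := 1) (k' := 0) (by norm_num) (by norm_num) hb
    refine cross_of (mem_lift_right hp') (mem_lift_left hq') (by omega) ⟨m, ?_⟩
    push_cast at hm ⊢
    linear_combination 3 * hm
  · obtain ⟨p, hp', q', hq', hlt, m, hm⟩ : CS N B E (u - 1 + (2 : ℕ)) :=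
      bit_of ht (j := 2) (k' := 3) (by norm_num) (by norm_num) hb
    refine cross_of (mem_lift_left hp') (mem_lift_right hq') (by omega) ⟨m, ?_⟩
    push_cast at hm ⊢
    linear_combination 3 * hm

end step

/-- **The step.** -/
theorem step_proof (hL : S_LIFT) (hI : S_INV) : S_STEP := by
  rintro r ⟨N, k, ω, B, E, q, hq, hp, hi, rfl⟩
  refine ⟨?_, ?_, ?_⟩
  · have h4 : q = 0 ∨ q = 1 ∨ q = 2 ∨ q = 3 := by omega
    rcases h4 with rfl | rfl | rfl | rfl
    · exact ⟨3 * N, k + 1, 3 * ω + 0, _, _, 1, by norm_num,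
        gpair_step hp (by norm_num) (by norm_num) (by norm_num) (mod_zero2 hL (Or.inl rfl) hp hi)
          (lift_ref hL hp.hE (Or.inr rfl)),
        hI.zero02 0 N k B E (Or.inl rfl) hp.hE hi, by push_cast; ring⟩
    · exact ⟨3 * N, k + 1, 3 * ω + 0, _, _, 0, by norm_num,
        gpair_step hp (by norm_num) (by norm_num) (by norm_num) (mod_zero1 hL (Or.inl rfl) hp hi)
          (lift_ref hL hp.hE (Or.inl rfl)),
        hI.zero1 N k B E hp.hE hi, by push_cast; ring⟩
    · exact ⟨3 * N, k + 1, 3 * ω + 0, _, _, 3, by norm_num,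
        gpair_step hp (by norm_num) (by norm_num) (by norm_num) (mod_zero1 hL (Or.inr rfl) hp hi)
          (lift_ref hL hp.hE (Or.inl rfl)),
        hI.zero2 N k B E hp.hE hi, by push_cast; ring⟩
    · exact ⟨3 * N, k + 1, 3 * ω + 0, _, _, 1, by norm_num,
        gpair_step hp (by norm_num) (by norm_num) (by norm_num) (mod_zero2 hL (Or.inr rfl) hp hi)
          (lift_ref hL hp.hE (Or.inr rfl)),
        hI.zero02 3 N k B E (Or.inr rfl) hp.hE hi, by push_cast; ring⟩
  · exact ⟨3 * N, k + 1, 3 * ω + 1, _, _, 1, by norm_num,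
      gpair_step hp (by norm_num) (by norm_num) (by norm_num) (mod_one hL hq hp hi)
        (lift_ref hL hp.hE (Or.inl rfl)),
      hI.one q N k B E hq hp.hE hi, by push_cast; ring⟩
  · exact ⟨3 * N, k + 1, 3 * ω + 2, _, _, 0, by norm_num,
      gpair_step hp (by norm_num) (by norm_num) (by norm_num) (mod_two hL hq hp hi)
        (lift_ref hL hp.hE (Or.inr rfl)),
      hI.two q N k B E hq hp.hE hi, by push_cast; ring⟩

/-- good characters from the check -/
theorem good_of_chk (hM : S_CHKMOD) (hC : S_CHKINV) {N k q ω : ℕ} {B E : List ℕ}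
    (h : chkBase N k q ω B E = true) {r : ℤ} (hr : r = 2 * ω + 1 - N) : Good r := by
  unfold chkBase at h
  simp only [Bool.and_eq_true, decide_eq_true_eq, List.all_eq_true, List.contains_iff_mem] at h
  obtain ⟨⟨⟨⟨⟨⟨h1, h2⟩, h3⟩, h4⟩, h5⟩, h6⟩, h7⟩ := h
  refine ⟨N, k, ω, B.toFinset, E.toFinset, q, h7, ⟨hM N k B h1, hM N k E h2, ?_, ?_, ?_⟩,
    hC q N k B E h1 h2 h3, hr⟩
  · exact List.mem_toFinset.2 h4
  · intro b hb
    exact h5 b (List.mem_toFinset.1 hb)
  · intro b hb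
    exact h6 b (List.mem_toFinset.1 hb)

/-- attained characters from the check -/
theorem att_of_chk (hS : S_SEQ) (hM : S_CHKMOD) {N k ω : ℕ} {B : List ℕ}
    (h : chkOne N k ω B = true) {r : ℤ} (hr : r = 2 * ω + 1 - N) : Att r := by
  unfold chkOne at h
  simp only [Bool.and_eq_true, decide_eq_true_eq, List.all_eq_true, List.contains_iff_mem] at h
  obtain ⟨⟨h1, h4⟩, h5⟩ := h
  rw [hr]
  exact hS N k ω B.toFinset (hM N k B h1) (List.mem_toFinset.2 h4)
    (fun b hb => h5 b (List.mem_toFinset.1 hb))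

theorem att_of_good (hS : S_SEQ) {r : ℤ} (h : Good r) : Att r := by
  obtain ⟨N, k, ω, B, E, q, hq, hp, hi, rfl⟩ := h
  exact hS N k ω B hp.hB hp.mem hp.max

end Pool.Agent.N965.ST
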