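import Pool.Agent.N965.ST.Stm2

/-!
# LEAF INV: the transitions of the states (project ST)

The covering relations of the lifted pair follow from those of the pair by a finite set of rules; the
rules are applied by a computable function, whose soundness is proved here, and the transitions of the
states are a finite check.
-/

set_option autoImplicit false

namespace Pool.Agent.N965.ST

namespace Inv

/-- strict (`b = true`) or weak relation -/
def RR (b : Bool) (N : ℕ) (X Y : Finset ℕ) (v : ℤ) : Prop :=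
  if b = true then CS N X Y v else CL N X Y v

lemma rule {N : ℕ} {X Y X' Y' : Finset ℕ} {al be : ℕ} (hX : ∀ p ∈ X, 3 * p + al ∈ X')
    (hY : ∀ q ∈ Y, 3 * q + be ∈ Y') (hbe : be < 3) {b b' : Bool}
    (hc : b = true ∨ (if b' = true then be < al else be ≤ al)) {v w : ℤ}
    (hw : w = 3 * v + 2 * al - be) (h : RR b N X Y v) : RR b' (3 * N) X' Y' w := by
  have key : ∃ p ∈ X, ∃ q ∈ Y, (if b = true then q < p else q ≤ p) ∧
      (N : ℤ) ∣ v - (2 * (p : ℤ) - q) := by
    unfold RR at h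
    cases b
    · simpa [CL] using h
    · simpa [CS] using h
  obtain ⟨p, hp, q, hq, hlt, c, hc'⟩ := key
  have hd : ((3 * N : ℕ) : ℤ) ∣ w - (2 * ((3 * p + al : ℕ) : ℤ) - ((3 * q + be : ℕ) : ℤ)) := by
    refine ⟨c, ?_⟩
    push_cast
    rw [hw]
    linear_combination 3 * hc'
  unfold RR
  cases b <;> cases b' <;> simp at hc hlt ⊢
  · exact ⟨3 * p + al, hX p hp, 3 * q + be, hY q hq, by omega, hd⟩
  · exact ⟨3 * p + al, hX p hp, 3 * q + be, hY q hq, by omega, hd⟩
  · exact ⟨3 * p + al, hX p hp, 3 * q + be, hY q hq, by omega, hd⟩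
  · exact ⟨3 * p + al, hX p hp, 3 * q + be, hY q hq, by omega, hd⟩

/-- is the relation strict -/
def stc : ℕ → Bool
  | 0 => false
  | 1 => true
  | 2 => false
  | _ => true

/-- is the first set `B` -/
def xb : ℕ → Bool
  | 2 => true
  | 3 => true
  | _ => false

/-- is the second set `B` -/
def yb : ℕ → Bool
  | 0 => true
  | 1 => true
  | _ => false

/-- `B` or `E` -/
def S2 (B E : Finset ℕ) (b : Bool) : Finset ℕ := if b = true then B else E

lemma comp_iff (N : ℕ) (B E : Finset ℕ) (k : ℕ) (hk : k < 5) (w : ℤ) :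
    Comp N B E k w ↔ RR (stc k) N (S2 B E (xb k)) (S2 B E (yb k)) w := by
  interval_cases k <;> simp [Comp, RR, stc, xb, yb, S2]

/-- the two parts of a lifted set -/
def opt (s r c : ℕ) (b : Bool) : List (Bool × ℕ) :=
  if b = true then [(true, s), (false, r)] else [(false, 0), (false, c)]

/-- the relations between `B` and `E` -/
def srcs : Bool → Bool → List (Bool × ℕ)
  | false, true => [(false, 0), (true, 1)]
  | true, false => [(false, 2), (true, 3)]
  | false, false => [(true, 4)]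
  | true, true => []

lemma srcs_mem {x y b : Bool} {k : ℕ} (h : (b, k) ∈ srcs x y) :
    k < 5 ∧ stc k = b ∧ xb k = x ∧ yb k = y := by
  cases x <;> cases y <;> simp [srcs] at h
  · obtain ⟨rfl, rfl⟩ := h
    simp [stc, xb, yb]
  · rcases h with ⟨rfl, rfl⟩ | ⟨rfl, rfl⟩ <;> simp [stc, xb, yb]
  · rcases h with ⟨rfl, rfl⟩ | ⟨rfl, rfl⟩ <;> simp [stc, xb, yb]

/-- the condition on the shifts for a weak relation -/
def cnd (b : Bool) (al be : ℕ) : Bool := if b = true then decide (be < al) else decide (be ≤ al)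

lemma cnd_iff {b : Bool} {al be : ℕ} (h : cnd b al be = true) :
    (if b = true then be < al else be ≤ al) := by
  unfold cnd at h
  cases b <;> simpa using h

/-- the relation `k'` at `3 (x - 1 + a) + m'` follows from the bits of `τ` at `x` -/
def has (s r c τ a m' k' : ℕ) : Bool :=
  (opt s r c (xb k')).any fun X => (opt s r c (yb k')).any fun Y =>
    decide ((m' + Y.2 + X.2) % 3 = 0) &&
    ((!X.1 && !Y.1 && cnd (stc k') X.2 Y.2) ||
     (decide (2 * X.2 ≤ 3 * a + m' + Y.2) && decide ((3 * a + m' + Y.2 - 2 * X.2) / 3 ≤ 2) &&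
      (srcs X.1 Y.1).any fun z => (z.1 || cnd (stc k') X.2 Y.2) &&
        τ.testBit (14 - 5 * ((3 * a + m' + Y.2 - 2 * X.2) / 3) - z.2)))

lemma cl_EE {N k : ℕ} {E : Finset ℕ} (h : ModSet N E k) (v : ℤ) : CL N E E v := by
  rcases h.cover v with ⟨a, ha, hd⟩ | ⟨y, hy, z, hz, hlt, hd⟩
  · refine ⟨a, ha, a, ha, le_rfl, ?_⟩
    have e : v - (2 * (a : ℤ) - a) = v - a := by ring
    rw [e]
    exact hd
  · refine ⟨y, hy, z, hz, hlt.le, ?_⟩
    have e : v - (2 * (y : ℤ) - z) = v + z - 2 * y := by ring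
    rw [e]
    exact hd

section

variable {N k s r c : ℕ} {B E B' E' : Finset ℕ}

lemma opt_mem (hB1 : ∀ p ∈ B, 3 * p + s ∈ B') (hB2 : ∀ p ∈ E, 3 * p + r ∈ B')
    (hE1 : ∀ p ∈ E, 3 * p + 0 ∈ E') (hE2 : ∀ p ∈ E, 3 * p + c ∈ E') (hs : s < 3) (hr : r < 3)
    (hc : c < 3) {b x : Bool} {al : ℕ} (h : (x, al) ∈ opt s r c b) :
    (∀ p ∈ S2 B E x, 3 * p + al ∈ S2 B' E' b) ∧ al < 3 := by
  cases b
  · simp [opt] at h
    rcases h with ⟨rfl, rfl⟩ | ⟨rfl, rfl⟩
    · exact ⟨by simpa [S2] using hE1, by omega⟩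
    · exact ⟨by simpa [S2] using hE2, hc⟩
  · simp [opt] at h
    rcases h with ⟨rfl, rfl⟩ | ⟨rfl, rfl⟩
    · exact ⟨by simpa [S2] using hB1, hs⟩
    · exact ⟨by simpa [S2] using hB2, hr⟩

lemma has_sound (hB1 : ∀ p ∈ B, 3 * p + s ∈ B') (hB2 : ∀ p ∈ E, 3 * p + r ∈ B')
    (hE1 : ∀ p ∈ E, 3 * p + 0 ∈ E') (hE2 : ∀ p ∈ E, 3 * p + c ∈ E') (hs : s < 3) (hr : r < 3)
    (hc : c < 3) (hE : ModSet N E k) {τ : ℕ} {x : ℤ} (hT : Tri N B E τ x) {a m' k' : ℕ}
    (hk' : k' < 5) (h : has s r c τ a m' k' = true) :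
    Comp (3 * N) B' E' k' (3 * (x - 1 + a) + m') := by
  unfold has at h
  rw [List.any_eq_true] at h
  obtain ⟨⟨bx, al⟩, hX, h⟩ := h
  rw [List.any_eq_true] at h
  obtain ⟨⟨bY, be⟩, hY, h⟩ := h
  simp only [Bool.and_eq_true, Bool.or_eq_true, decide_eq_true_eq, Bool.not_eq_true'] at h
  obtain ⟨h3, h⟩ := h
  obtain ⟨hX1, hX2⟩ := opt_mem hB1 hB2 hE1 hE2 hs hr hc hX
  obtain ⟨hY1, hY2⟩ := opt_mem hB1 hB2 hE1 hE2 hs hr hc hY
  rw [comp_iff _ _ _ _ hk']
  rcases h with ⟨⟨hbx, hbY⟩, hcn⟩ | ⟨⟨hle, hb2⟩, h⟩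
  · subst hbx
    subst hbY
    have h4 : ∃ t : ℕ, m' + be + al = 3 * t := ⟨(m' + be + al) / 3, by omega⟩
    obtain ⟨t, ht⟩ := h4
    refine rule (b := false) hX1 hY1 hY2 (Or.inr (cnd_iff hcn)) (v := x - 1 + a + t - al) ?_ ?_
    · have : (m' : ℤ) + be + al = 3 * t := by exact_mod_cast ht
      linarith
    · unfold RR
      simpa [S2] using cl_EE hE (x - 1 + a + t - al)
  · rw [List.any_eq_true] at h
    obtain ⟨⟨b, kk⟩, hz, h⟩ := h
    simp only [Bool.and_eq_true, Bool.or_eq_true] at h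
    obtain ⟨hk1, hk2, hk3, hk4⟩ := srcs_mem hz
    set d := (3 * a + m' + be - 2 * al) / 3 with hd
    have h5 := hT d (by omega) kk hk1 h.2
    rw [comp_iff _ _ _ _ hk1, hk2, hk3, hk4] at h5
    refine rule hX1 hY1 hY2 ?_ (v := x - 1 + d) ?_ h5
    · rcases h.1 with h6 | h6
      · exact Or.inl h6
      · exact Or.inr (cnd_iff h6)
    · have h7 : 3 * d + 2 * al = 3 * a + m' + be := by omega
      have h8 : 3 * (d : ℤ) + 2 * al = 3 * a + m' + be := by exact_mod_cast h7
      linarith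

end

/-- the finite check -/
def chk (s r c q q' : ℕ) : Bool :=
  (st q).all fun τ => (List.range 3).all fun m => (st q').any fun τ' =>
    (List.range 3).all fun j => (List.range 5).all fun k =>
      !(τ'.testBit (14 - 5 * j - k)) || has s r c τ ((m + j + 2) / 3) ((m + j + 2) % 3) k

theorem trans {s r c q q' : ℕ} (hs : s < 3) (hr : r < 3) (hc : c < 3)
    (hchk : chk s r c q q' = true) (N k : ℕ) (B E : Finset ℕ) (hE : ModSet N E k)
    (h : Inv q N B E) : Inv q' (3 * N) (lift s r B E) (lift 0 c E E) := by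
  have hB1 : ∀ p ∈ B, 3 * p + s ∈ lift s r B E := fun p hp =>
    Finset.mem_union_left _ (Finset.mem_image.2 ⟨p, hp, rfl⟩)
  have hB2 : ∀ p ∈ E, 3 * p + r ∈ lift s r B E := fun p hp =>
    Finset.mem_union_right _ (Finset.mem_image.2 ⟨p, hp, rfl⟩)
  have hE1 : ∀ p ∈ E, 3 * p + 0 ∈ lift 0 c E E := fun p hp =>
    Finset.mem_union_left _ (Finset.mem_image.2 ⟨p, hp, rfl⟩)
  have hE2 : ∀ p ∈ E, 3 * p + c ∈ lift 0 c E E := fun p hp =>
    Finset.mem_union_right _ (Finset.mem_image.2 ⟨p, hp, rfl⟩)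
  intro y
  obtain ⟨τ, hτ, hT⟩ := h (y / 3)
  have h0 : ∃ m : ℕ, m < 3 ∧ y = 3 * (y / 3) + m := ⟨(y % 3).toNat, by omega, by omega⟩
  obtain ⟨m, hm, hy⟩ := h0
  unfold chk at hchk
  have h1 := List.all_eq_true.1 hchk τ hτ
  have h2 := List.all_eq_true.1 h1 m (List.mem_range.2 hm)
  obtain ⟨τ', hτ', h3⟩ := List.any_eq_true.1 h2
  refine ⟨τ', hτ', fun j hj kk hk hb => ?_⟩
  have h4 := List.all_eq_true.1 h3 j (List.mem_range.2 hj)
  have h5 := List.all_eq_true.1 h4 kk (List.mem_range.2 hk)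
  rw [hb] at h5
  simp only [Bool.not_true, Bool.false_or] at h5
  have h6 := has_sound hB1 hB2 hE1 hE2 hs hr hc hE hT hk h5
  have e : (3 * (y / 3 - 1 + (((m + j + 2) / 3 : ℕ) : ℤ)) + (((m + j + 2) % 3 : ℕ) : ℤ)) =
      y - 1 + j := by omega
  rw [e] at h6
  exact h6

end Inv

theorem inv_proof : S_INV where
  one := by
    intro q N k B E hq hE h
    refine Inv.trans (q := q) (by norm_num) (by norm_num) (by norm_num) ?_ N k B E hE h
    interval_cases q <;> decide +kernel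
  two := by
    intro q N k B E hq hE h
    refine Inv.trans (q := q) (by norm_num) (by norm_num) (by norm_num) ?_ N k B E hE h
    interval_cases q <;> decide +kernel
  zero02 := by
    intro q N k B E hq hE h
    refine Inv.trans (q := q) (by norm_num) (by norm_num) (by norm_num) ?_ N k B E hE h
    rcases hq with rfl | rfl <;> decide +kernel
  zero1 := by
    intro N k B E hE h
    exact Inv.trans (q := 1) (by norm_num) (by norm_num) (by norm_num) (by decide +kernel) N k B E hE h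
  zero2 := by
    intro N k B E hE h
    exact Inv.trans (q := 2) (by norm_num) (by norm_num) (by norm_num) (by decide +kernel) N k B E hE h

end Pool.Agent.N965.ST
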