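import Pool.Agent.N965.ST.Stm2

/-!
# Project ST, leaf LIFT (helper706): modular sets lift
-/

set_option autoImplicit false

namespace Pool.Agent.N965.ST

namespace Lift

theorem mem_lift {s r x : ℕ} {B E : Finset ℕ} :
    x ∈ lift s r B E ↔ (∃ b ∈ B, 3 * b + s = x) ∨ ∃ e ∈ E, 3 * e + r = x := by
  unfold lift
  simp only [Finset.mem_union, Finset.mem_image]

theorem same {N s a b c : ℕ}
    (h : ((3 * N : ℕ) : ℤ) ∣ ((3 * a + s : ℕ) : ℤ) + ((3 * c + s : ℕ) : ℤ) - 2 * ((3 * b + s : ℕ) : ℤ)) :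
    (N : ℤ) ∣ (a : ℤ) + c - 2 * b := by
  obtain ⟨w, hw⟩ := h
  refine ⟨w, ?_⟩
  push_cast at hw
  linarith

theorem up {N s : ℕ} {u v : ℤ} (h : (N : ℤ) ∣ u - v) :
    ((3 * N : ℕ) : ℤ) ∣ (3 * u + s) - (3 * v + s) := by
  obtain ⟨w, hw⟩ := h
  refine ⟨w, ?_⟩
  push_cast
  linarith

theorem up' {N s : ℕ} {u v w : ℤ} (h : (N : ℤ) ∣ u + v - 2 * w) :
    ((3 * N : ℕ) : ℤ) ∣ (3 * u + s) + (3 * v + s) - 2 * (3 * w + s) := by
  obtain ⟨c, hc⟩ := h
  refine ⟨c, ?_⟩
  push_cast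
  linarith

theorem three {N : ℕ} {x : ℤ} (h : ((3 * N : ℕ) : ℤ) ∣ x) : (3 : ℤ) ∣ x :=
  (Dvd.intro (N : ℤ) (by push_cast; rfl)).trans h

end Lift

open Lift in
theorem lift_proof : S_LIFT := by
  intro N k s r t B E hB hE hs hr ht hsr hts htr h0 hcov
  constructor
  · have := hB.pos
    omega
  · intro x hx
    rcases mem_lift.1 hx with ⟨b, hb, rfl⟩ | ⟨e, he, rfl⟩
    · have := hB.lt b hb
      omega
    · have := hE.lt e he
      omega
  · rcases h0 with h0 | h0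
    · exact mem_lift.2 (Or.inl ⟨0, hB.zero, by omega⟩)
    · exact mem_lift.2 (Or.inr ⟨0, hE.zero, by omega⟩)
  · unfold lift
    rw [Finset.card_union_of_disjoint, Finset.card_image_of_injective, Finset.card_image_of_injective,
      hB.card, hE.card, pow_succ]
    · ring
    · intro a b hab
      simp only at hab
      omega
    · intro a b hab
      simp only at hab
      omega
    · rw [Finset.disjoint_left]
      intro x hx hx'
      obtain ⟨b, _, hb⟩ := Finset.mem_image.1 hx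
      obtain ⟨e, _, he⟩ := Finset.mem_image.1 hx'
      omega
  · intro x hx y hy z hz h
    have h3 := three h
    rcases mem_lift.1 hx with ⟨a, ha, rfl⟩ | ⟨a, ha, rfl⟩ <;>
    rcases mem_lift.1 hy with ⟨b, hb, rfl⟩ | ⟨b, hb, rfl⟩ <;>
    rcases mem_lift.1 hz with ⟨c, hc, rfl⟩ | ⟨c, hc, rfl⟩
    · obtain ⟨h1, h2⟩ := hB.free a ha b hb c hc (same h)
      exact ⟨by rw [h1], by rw [h2]⟩
    · exfalso; push_cast at h3; omega
    · exfalso; push_cast at h3; omega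
    · exfalso; push_cast at h3; omega
    · exfalso; push_cast at h3; omega
    · exfalso; push_cast at h3; omega
    · exfalso; push_cast at h3; omega
    · obtain ⟨h1, h2⟩ := hE.free a ha b hb c hc (same h)
      exact ⟨by rw [h1], by rw [h2]⟩
  · intro x
    obtain ⟨u, hu⟩ : ∃ u : ℤ, x = 3 * u + s ∨ x = 3 * u + r ∨ x = 3 * u + t :=
      ⟨x / 3, by omega⟩
    rcases hu with rfl | rfl | rfl
    · rcases hB.cover u with ⟨a, ha, h⟩ | ⟨y, hy, z, hz, hzy, h⟩
      · refine Or.inl ⟨3 * a + s, mem_lift.2 (Or.inl ⟨a, ha, rfl⟩), ?_⟩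
        push_cast
        exact_mod_cast up (s := s) h
      · refine Or.inr ⟨3 * y + s, mem_lift.2 (Or.inl ⟨y, hy, rfl⟩), 3 * z + s,
          mem_lift.2 (Or.inl ⟨z, hz, rfl⟩), by omega, ?_⟩
        exact_mod_cast up' (s := s) h
    · rcases hE.cover u with ⟨a, ha, h⟩ | ⟨y, hy, z, hz, hzy, h⟩
      · refine Or.inl ⟨3 * a + r, mem_lift.2 (Or.inr ⟨a, ha, rfl⟩), ?_⟩
        exact_mod_cast up (s := r) h
      · refine Or.inr ⟨3 * y + r, mem_lift.2 (Or.inr ⟨y, hy, rfl⟩), 3 * z + r,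
          mem_lift.2 (Or.inr ⟨z, hz, rfl⟩), by omega, ?_⟩
        exact_mod_cast up' (s := r) h
    · exact Or.inr (hcov u)

end Pool.Agent.N965.ST

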