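import Pool.Agent.N965.ST.Fin

/-!
# The theorem (project ST), MP_a323b2_co

Every nonnegative integer outside `{1, 3, 5, 9, 11, 15}` is the character of an independent Stanley
sequence (conjecture of Rolnick; Sawhney treated all characters outside the class `244` modulo `486`).

Construction (helper965): a modular set `B` modulo `N` with `2 ^ k` elements and maximum `ω` gives the
character `2 ω + 1 - N`. A pair `(B, E)` of modular sets with `max E < max B` is replaced by
`(3 B + s) ∪ (3 E + r)`, `3 E ∪ (3 E + c)` modulo `3 N`, which changes the character `x` of `B` into
`3 x + 2 (s - 1)`; the covering relations between `B` and `E` are described by four states, and for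
every digit `s` there is a transition. Initial pairs were found by computer.

Leaves: Dig (helper832, helper687), Seq (helper11, helper720), Lift (helper706, helper833), Inv (helper691,
helper342), ChkMod (helper703, helper439), ChkInv (helper399, helper744).
-/

set_option autoImplicit false

namespace Pool.Agent.N965.ST

theorem good_even (hT : S_STEP) (hM : S_CHKMOD) (hC : S_CHKINV) : ∀ n : ℕ, 3 ≤ n → Good (2 * n) := by
  intro n
  induction n using Nat.strong_induction_on with
  | _ n ih =>
    intro hn
    by_cases h8 : n < 8
    · interval_cases n
      · exact good_of_chk hM hC base_6 (by norm_num)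
      · exact good_of_chk hM hC base_8 (by norm_num)
      · exact good_of_chk hM hC base_10 (by norm_num)
      · exact good_of_chk hM hC base_12 (by norm_num)
      · exact good_of_chk hM hC base_14 (by norm_num)
    · obtain ⟨m, hm | hm | hm⟩ : ∃ m, n = 3 * m ∨ n = 3 * m + 1 ∨ n = 3 * m + 2 := ⟨n / 3, by omega⟩
      · have h := (hT _ (ih m (by omega) (by omega))).2.1
        rw [hm]
        convert h using 1
        push_cast
        ring
      · have h := (hT _ (ih m (by omega) (by omega))).2.2
        rw [hm]
        convert h using 1
        push_cast
        ring
      · have h := (hT _ (ih (m + 1) (by omega) (by omega))).1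
        rw [hm]
        convert h using 1
        push_cast
        ring

theorem good_odd (hT : S_STEP) (hM : S_CHKMOD) (hC : S_CHKINV) : ∀ n : ℕ, 16 ≤ n → Good (2 * n + 1) := by
  have g27 : Good 27 := good_of_chk hM hC base_27 (by norm_num)
  have g29 : Good 29 := good_of_chk hM hC base_29 (by norm_num)
  intro n
  induction n using Nat.strong_induction_on with
  | _ n ih =>
    intro hn
    by_cases h8 : n < 48
    · interval_cases n
      · exact good_of_chk hM hC base_33 (by norm_num)
      · exact good_of_chk hM hC base_35 (by norm_num)
      · exact good_of_chk hM hC base_37 (by norm_num)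
      · exact good_of_chk hM hC base_39 (by norm_num)
      · exact good_of_chk hM hC base_41 (by norm_num)
      · exact good_of_chk hM hC base_43 (by norm_num)
      · exact good_of_chk hM hC base_45 (by norm_num)
      · exact good_of_chk hM hC base_47 (by norm_num)
      · exact good_of_chk hM hC base_49 (by norm_num)
      · exact good_of_chk hM hC base_51 (by norm_num)
      · exact good_of_chk hM hC base_53 (by norm_num)
      · exact good_of_chk hM hC base_55 (by norm_num)
      · exact good_of_chk hM hC base_57 (by norm_num)
      · exact good_of_chk hM hC base_59 (by norm_num)
      · exact good_of_chk hM hC base_61 (by norm_num)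
      · exact good_of_chk hM hC base_63 (by norm_num)
      · exact good_of_chk hM hC base_65 (by norm_num)
      · exact good_of_chk hM hC base_67 (by norm_num)
      · exact good_of_chk hM hC base_69 (by norm_num)
      · exact good_of_chk hM hC base_71 (by norm_num)
      · exact good_of_chk hM hC base_73 (by norm_num)
      · exact good_of_chk hM hC base_75 (by norm_num)
      · exact good_of_chk hM hC base_77 (by norm_num)
      · have h := (hT _ g27).1
        norm_num at h ⊢
        exact h
      · have h := (hT _ g27).2.1
        norm_num at h ⊢
        exact h
      · have h := (hT _ g27).2.2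
        norm_num at h ⊢
        exact h
      · have h := (hT _ g29).1
        norm_num at h ⊢
        exact h
      · have h := (hT _ g29).2.1
        norm_num at h ⊢
        exact h
      · have h := (hT _ g29).2.2
        norm_num at h ⊢
        exact h
      · exact good_of_chk hM hC base_91 (by norm_num)
      · exact good_of_chk hM hC base_93 (by norm_num)
      · exact good_of_chk hM hC base_95 (by norm_num)
    · obtain ⟨m, hm | hm | hm⟩ : ∃ m, n = 3 * m ∨ n = 3 * m + 1 ∨ n = 3 * m + 2 := ⟨n / 3, by omega⟩
      · have h := (hT _ (ih m (by omega) (by omega))).1
        rw [hm]
        convert h using 1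
        push_cast
        ring
      · have h := (hT _ (ih m (by omega) (by omega))).2.1
        rw [hm]
        convert h using 1
        push_cast
        ring
      · have h := (hT _ (ih m (by omega) (by omega))).2.2
        rw [hm]
        convert h using 1
        push_cast
        ring

theorem main_all (hS : S_SEQ) (hT : S_STEP) (hM : S_CHKMOD) (hC : S_CHKINV) :
    ∀ r : ℤ, 0 ≤ r → r ∉ ({1, 3, 5, 9, 11, 15} : Finset ℤ) → Att r := by
  intro r hr hex
  obtain ⟨n, hn | hn⟩ : ∃ n : ℕ, r = 2 * n ∨ r = 2 * n + 1 := ⟨(r / 2).toNat, by omega⟩
  · by_cases h3 : 3 ≤ n
    · rw [hn]
      exact att_of_good hS (good_even hT hM hC n h3)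
    · have h2 : n < 3 := by omega
      subst hn
      interval_cases n
      · exact att_of_chk hS hM one_0 (by norm_num)
      · exact att_of_chk hS hM one_2 (by norm_num)
      · exact att_of_chk hS hM one_4 (by norm_num)
  · by_cases h3 : 16 ≤ n
    · rw [hn]
      exact att_of_good hS (good_odd hT hM hC n h3)
    · have h2 : n < 16 := by omega
      subst hn
      interval_cases n
      · exact absurd hex (by norm_num)
      · exact absurd hex (by norm_num)
      · exact absurd hex (by norm_num)
      · exact att_of_chk hS hM one_7 (by norm_num)
      · exact absurd hex (by norm_num)
      · exact absurd hex (by norm_num)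
      · exact att_of_chk hS hM one_13 (by norm_num)
      · exact absurd hex (by norm_num)
      · exact att_of_chk hS hM one_17 (by norm_num)
      · exact att_of_chk hS hM one_19 (by norm_num)
      · exact att_of_chk hS hM one_21 (by norm_num)
      · exact att_of_chk hS hM one_23 (by norm_num)
      · exact att_of_chk hS hM one_25 (by norm_num)
      · exact att_of_good hS (good_of_chk hM hC base_27 (by norm_num))
      · exact att_of_good hS (good_of_chk hM hC base_29 (by norm_num))
      · exact att_of_chk hS hM one_31 (by norm_num)

end Pool.Agent.N965.ST
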