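import Pool.Agent.N965.ST.Stm2

set_option autoImplicit false

namespace Pool.Agent.N965.ST
namespace Seq

/-- the sequence built from the enumeration `E` of the modular set -/
theorem core (D : S_DIG) (N k ω : ℕ) (A : Finset ℕ) (hA : ModSet N A k) (hω : ω ∈ A)
    (hmax : ∀ a ∈ A, a ≤ ω) (E : ℕ → ℕ) (hEmem : ∀ i < 2 ^ k, E i ∈ A)
    (hEmono : ∀ i j, i < j → j < 2 ^ k → E i < E j)
    (hEsurj : ∀ x ∈ A, ∃ i < 2 ^ k, E i = x) : Att (2 * ω + 1 - N) := by
  have hN := hA.pos
  have hT : 0 < 2 ^ k := by positivity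
  have hTk : (2 : ℕ) ^ k = 2 ^ k := rfl
  generalize hTdef : 2 ^ k = T at *
  have hE0 : E 0 = 0 := by
    obtain ⟨i, hi, he⟩ := hEsurj 0 hA.zero
    rcases Nat.eq_zero_or_pos i with h | h
    · rw [h] at he; exact he
    · have := hEmono 0 i h hi; omega
  have hEl : E (T - 1) = ω := by
    obtain ⟨i, hi, he⟩ := hEsurj ω hω
    have h1 := hmax _ (hEmem (T - 1) (by omega))
    rcases Nat.lt_or_ge i (T - 1) with h | h
    · have := hEmono i (T - 1) h (by omega); omega
    · have : i = T - 1 := by omega
      rw [← this]; exact he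
  have hElt : ∀ i < T, E i < N := fun i hi => hA.lt _ (hEmem i hi)
  have hEinj : ∀ i j, i < T → j < T → E i = E j → i = j := by
    intro i j hi hj h
    rcases Nat.lt_trichotomy i j with h1 | h1 | h1
    · have := hEmono i j h1 hj; omega
    · exact h1
    · have := hEmono j i h1 hi; omega
  obtain ⟨a, ha⟩ : ∃ a : ℕ → ℕ, ∀ n, a n = E (n % T) + N * sq (n / T) := ⟨_, fun n => rfl⟩
  have haa : ∀ i m, i < T → a (i + T * m) = E i + N * sq m := by
    intro i m hi
    rw [ha, Nat.add_mul_mod_self_left, Nat.mod_eq_of_lt hi, Nat.add_mul_div_left _ _ hT,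
      Nat.div_eq_of_lt hi, Nat.zero_add]
  have hsq1 : sq 1 = 1 := by
    have := D.last 1
    norm_num at this
    omega
  have hmono : StrictMono a := by
    intro n m hnm
    rw [ha, ha]
    rcases Nat.lt_or_ge (n / T) (m / T) with h | h
    · have h1 := D.mono h
      have h2 := hElt (n % T) (Nat.mod_lt _ hT)
      have h3 : N * (sq (n / T) + 1) ≤ N * sq (m / T) := Nat.mul_le_mul_left _ h1
      rw [Nat.mul_add, Nat.mul_one] at h3
      omega
    · have h0 : n / T = m / T := le_antisymm (Nat.div_le_div_right hnm.le) h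
      have h1 := Nat.div_add_mod n T
      have h2 := Nat.div_add_mod m T
      have h3 : n % T < m % T := by rw [h0] at h1; omega
      have := hEmono _ _ h3 (Nat.mod_lt _ hT)
      rw [h0]; omega
  refine ⟨a, T, hmono, ?_, ?_, k, ?_⟩
  · intro i j l hij hjl h
    rw [ha, ha, ha] at h
    have hd : (N : ℤ) ∣ (E (i % T) : ℤ) + (E (l % T) : ℤ) - 2 * (E (j % T) : ℤ) := by
      refine ⟨2 * sq (j / T) - sq (i / T) - sq (l / T), ?_⟩
      have h' : ((E (i % T) + N * sq (i / T) + (E (l % T) + N * sq (l / T)) : ℕ) : ℤ)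
          = ((2 * (E (j % T) + N * sq (j / T)) : ℕ) : ℤ) := by exact_mod_cast h
      push_cast at h'
      linarith
    obtain ⟨h1, h2⟩ := hA.free _ (hEmem _ (Nat.mod_lt i hT)) _ (hEmem _ (Nat.mod_lt j hT)) _
      (hEmem _ (Nat.mod_lt l hT)) hd
    have h3 := hEinj _ _ (Nat.mod_lt i hT) (Nat.mod_lt j hT) h1
    have h5 : N * (sq (i / T) + sq (l / T)) = N * (2 * sq (j / T)) := by
      rw [h1, ← h2] at h
      nlinarith
    have h6 := Nat.eq_of_mul_eq_mul_left hN h5
    have h7 := D.free _ _ _ h6
    have e1 := Nat.div_add_mod i T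
    have e2 := Nat.div_add_mod j T
    rw [h7.1, h3] at e1
    omega
  · intro n hn m hm1 hm2
    have haT : a T = N := by
      have h1 := haa 0 1 hT
      rw [hE0, hsq1] at h1
      simpa using h1
    have hNm : N < m := by
      have h1 : a T ≤ a (n - 1) := hmono.monotone (by omega)
      omega
    have hnv : ∀ q, a q ≠ m := by
      intro q hq
      rcases Nat.lt_or_ge q n with h | h
      · have := hmono.monotone (show q ≤ n - 1 by omega); omega
      · have := hmono.monotone h; omega
    suffices hs : ∃ i j, a i < a j ∧ a i + m = 2 * a j by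
      obtain ⟨i, j, h1, h2⟩ := hs
      refine ⟨i, j, hmono.lt_iff_lt.mp h1, ?_, h2⟩
      have h3 : a j < a n := by omega
      exact hmono.lt_iff_lt.mp h3
    obtain ⟨x, hx⟩ : ∃ x, x = m % N := ⟨_, rfl⟩
    obtain ⟨X, hX⟩ : ∃ X, X = m / N := ⟨_, rfl⟩
    have hxN : x < N := by rw [hx]; exact Nat.mod_lt _ hN
    have hmx : N * X + x = m := by rw [hx, hX]; exact Nat.div_add_mod m N
    have hX1 : 1 ≤ X := by
      rcases Nat.eq_zero_or_pos X with h | h
      · rw [h] at hmx; omega
      · exact h
    rcases hA.cover (x : ℤ) with ⟨b, hb, c, hc⟩ | ⟨y, hy, z, hz, hzy, c, hc⟩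
    · have hbN := hA.lt b hb
      have hc0 : c = 0 := by
        have h1 : c < 1 := by
          by_contra hcc
          push Not at hcc
          have h2 : (N : ℤ) * 1 ≤ N * c := mul_le_mul_of_nonneg_left hcc (by positivity)
          omega
        have h2 : -1 < c := by
          by_contra hcc
          push Not at hcc
          have h2 : (N : ℤ) * c ≤ N * (-1) := mul_le_mul_of_nonneg_left hcc (by positivity)
          omega
        omega
      have hbx : b = x := by
        rw [hc0, mul_zero] at hc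
        omega
      subst hbx
      obtain ⟨i0, hi0, he0⟩ := hEsurj b hb
      rcases D.cover X with ⟨w, hw⟩ | ⟨i', j', hij, h⟩
      · exact absurd (by rw [haa i0 w hi0, he0, hw]; omega) (hnv (i0 + T * w))
      · refine ⟨i0 + T * i', i0 + T * j', ?_, ?_⟩
        · rw [haa _ _ hi0, haa _ _ hi0]
          have := Nat.mul_lt_mul_of_pos_left (D.mono hij) hN
          omega
        · rw [haa _ _ hi0, haa _ _ hi0, he0, ← hmx]
          have h2 : N * (sq i' + X) = N * (2 * sq j') := by rw [h]
          nlinarith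
    · have hyN := hA.lt y hy
      have hc1 : c < 1 := by
        by_contra hcc
        push Not at hcc
        have h2 : (N : ℤ) * 1 ≤ N * c := mul_le_mul_of_nonneg_left hcc (by positivity)
        omega
      have hc2 : -2 < c := by
        by_contra hcc
        push Not at hcc
        have h2 : (N : ℤ) * c ≤ N * (-2) := mul_le_mul_of_nonneg_left hcc (by positivity)
        omega
      obtain ⟨d, hd⟩ : ∃ d : ℕ, c = -(d : ℤ) := ⟨(-c).toNat, by omega⟩
      have hd1 : d ≤ 1 := by omega
      have key : 2 * y = x + z + N * d := by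
        rw [hd] at hc
        have : ((2 * y : ℕ) : ℤ) = ((x + z + N * d : ℕ) : ℤ) := by
          push_cast
          linarith
        exact_mod_cast this
      obtain ⟨W, hW⟩ : ∃ W, X = W + d := ⟨X - d, by omega⟩
      obtain ⟨iy, hiy, hey⟩ := hEsurj y hy
      obtain ⟨iz, hiz, hez⟩ := hEsurj z hz
      have hm' : m = N * W + N * d + x := by rw [← hmx, hW]; ring
      rcases D.cover W with ⟨w, hw⟩ | ⟨i', j', hij, h⟩
      · refine ⟨iz + T * w, iy + T * w, ?_, ?_⟩
        · rw [haa _ _ hiz, haa _ _ hiy, hey, hez]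
          omega
        · rw [haa _ _ hiz, haa _ _ hiy, hey, hez, hw, hm']
          nlinarith
      · refine ⟨iz + T * i', iy + T * j', ?_, ?_⟩
        · rw [haa _ _ hiz, haa _ _ hiy, hey, hez]
          have := Nat.mul_lt_mul_of_pos_left (D.mono hij) hN
          omega
        · rw [haa _ _ hiz, haa _ _ hiy, hey, hez, hm']
          have h2 : N * (sq i' + W) = N * (2 * sq j') := by rw [h]
          nlinarith
  · intro k' hk'
    obtain ⟨h, rfl⟩ : ∃ h, k' = k + h := ⟨k' - k, by omega⟩
    have hpow : 2 ^ (k + h) = T * 2 ^ h := by rw [pow_add, hTdef]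
    have h2h : 0 < 2 ^ h := by positivity
    have hsqh : sq (2 ^ h) = 3 ^ h := by
      have := D.add h 0 h2h
      rw [D.zero] at this
      simpa using this
    have haP : a (2 ^ (k + h)) = N * 3 ^ h := by
      have h1 := haa 0 (2 ^ h) hT
      rw [hE0, hsqh, Nat.zero_add, Nat.zero_add] at h1
      rw [hpow, h1]
    have haQ : a (2 ^ (k + h) - 1) = ω + N * sq (2 ^ h - 1) := by
      have h1 := haa (T - 1) (2 ^ h - 1) (by omega)
      have h2 : T - 1 + T * (2 ^ h - 1) = 2 ^ (k + h) - 1 := by
        rw [hpow]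
        obtain ⟨u, hu⟩ : ∃ u, 2 ^ h = u + 1 := ⟨2 ^ h - 1, by omega⟩
        rw [hu, Nat.add_sub_cancel, Nat.mul_add, Nat.mul_one]
        omega
      rw [h2, hEl] at h1
      exact h1
    constructor
    · intro i hi
      have hdiv : i / T < 2 ^ h := by
        rw [hpow] at hi
        exact Nat.div_lt_of_lt_mul hi
      have h1 := haa (i % T) (2 ^ h + i / T) (Nat.mod_lt _ hT)
      have h2 : i % T + T * (2 ^ h + i / T) = 2 ^ (k + h) + i := by
        rw [hpow, Nat.mul_add]
        have := Nat.div_add_mod i T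
        omega
      rw [h2, D.add h _ hdiv] at h1
      rw [h1, haP, ha i]
      ring
    · rw [haP, haQ]
      have h1 := D.last h
      have h2 : ((2 * sq (2 ^ h - 1) + 1 : ℕ) : ℤ) = ((3 ^ h : ℕ) : ℤ) := by rw [h1]
      push_cast at h2 ⊢
      rw [← h2]
      ring

end Seq

theorem seq_proof : S_SEQ' := by
  intro D N k ω A hA hω hmax
  classical
  let e := A.orderEmbOfFin hA.card
  refine Seq.core D N k ω A hA hω hmax (fun i => if h : i < 2 ^ k then e ⟨i, h⟩ else 0) ?_ ?_ ?_
  · intro i hi
    simp only [hi, dite_true]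
    exact A.orderEmbOfFin_mem hA.card _
  · intro i j hij hj
    have hi : i < 2 ^ k := by omega
    simp only [hi, hj, dite_true]
    exact e.strictMono (by simpa [Fin.lt_def] using hij)
  · intro x hx
    have h1 : x ∈ Set.range e := by
      rw [Finset.range_orderEmbOfFin]
      exact hx
    obtain ⟨i, hi⟩ := h1
    refine ⟨i.1, i.2, ?_⟩
    simp only [i.2, dite_true]
    exact hi

end Pool.Agent.N965.ST
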