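import Pool.Agent.N965.ST.Main
import Pool.Agent.N965.ST.Dig
import Pool.Agent.N965.ST.Seq
import Pool.Agent.N965.ST.Lift
import Pool.Agent.N965.ST.Inv
import Pool.Agent.N965.ST.ChkMod
import Pool.Agent.N965.ST.ChkInv

/-!
# Rolnick's conjecture on the characters of independent Stanley sequences (kept in the library, NOT handed in)

The theorem below was landed as the frozen statement S10529 (page MP_a323b2_co) on 26 November, 20:56 UTC, and was
withdrawn by its author at 21:15 UTC: the conjecture is, as far as he remembers, proved in R. A. Moy, M. Sawhney and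
D. Stoner, Characters of independent Stanley sequences (arXiv 2017, European Journal of Combinatorics 2018), after
Sawhney's paper Character values of Stanley sequences. The proof here (an automaton on the ternary digits of the
character) was found independently.
-/

set_option autoImplicit false


namespace Pool.Agent.N965.ST.Rolnick

/-- For every nonnegative integer r other than 1,3,5,9,11,15 there is a greedy 3-AP-free (Stanley) sequence that is eventually independent: blocks repeat via a(2^k+i)=a(2^k)+a(i) and a(2^k)=2a(2^k−1)−r+1. -/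
theorem rolnick :
    ∀ r : ℤ, 0 ≤ r → r ∉ ({1, 3, 5, 9, 11, 15} : Finset ℤ) →
      ∃ a : ℕ → ℕ, ∃ t : ℕ, StrictMono a ∧
        (∀ i j k : ℕ, i < j → j < k → a i + a k ≠ 2 * a j) ∧
        (∀ n : ℕ, t < n → ∀ m : ℕ, a (n - 1) < m → m < a n →
          ∃ i j : ℕ, i < j ∧ j < n ∧ a i + m = 2 * a j) ∧
        (∃ k : ℕ, ∀ k' : ℕ, k ≤ k' →
          (∀ i : ℕ, i < 2 ^ k' → a (2 ^ k' + i) = a (2 ^ k') + a i) ∧
          ((a (2 ^ k') : ℤ) = 2 * (a (2 ^ k' - 1) : ℤ) - r + 1)) :=
  Pool.Agent.N965.ST.main_all
    (Pool.Agent.N965.ST.seq_proof Pool.Agent.N965.ST.dig_proof)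
    (Pool.Agent.N965.ST.step_proof Pool.Agent.N965.ST.lift_proof Pool.Agent.N965.ST.inv_proof)
    Pool.Agent.N965.ST.chkMod_proof Pool.Agent.N965.ST.chkInv_proof

end Pool.Agent.N965.ST.Rolnick
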