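import Mathlib

/-!
# Characters of independent Stanley sequences: statements (project ST, MP_a323b2_co)
-/

set_option autoImplicit false

namespace Pool.Agent.N965.ST

/-- `A` is a modular set modulo `N` with `2 ^ k` elements: it contains `0`, is free of three-term
progressions modulo `N`, and every residue outside `A` is the end of a progression `z, y, x` modulo `N`
with `z < y` in `A`. -/
structure ModSet (N : ℕ) (A : Finset ℕ) (k : ℕ) : Prop where
  pos : 0 < N
  lt : ∀ x ∈ A, x < N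
  zero : 0 ∈ A
  card : A.card = 2 ^ k
  free : ∀ x ∈ A, ∀ y ∈ A, ∀ z ∈ A, (N : ℤ) ∣ (x : ℤ) + z - 2 * y → x = y ∧ y = z
  cover : ∀ x : ℤ, (∃ a ∈ A, (N : ℤ) ∣ x - a) ∨
    ∃ y ∈ A, ∃ z ∈ A, z < y ∧ (N : ℤ) ∣ x + z - 2 * y

/-- The conclusion of the frozen statement for the character `r`. -/
def Att (r : ℤ) : Prop :=
  ∃ a : ℕ → ℕ, ∃ t : ℕ, StrictMono a ∧
    (∀ i j k : ℕ, i < j → j < k → a i + a k ≠ 2 * a j) ∧
    (∀ n : ℕ, t < n → ∀ m : ℕ, a (n - 1) < m → m < a n →
      ∃ i j : ℕ, i < j ∧ j < n ∧ a i + m = 2 * a j) ∧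
    (∃ k : ℕ, ∀ k' : ℕ, k ≤ k' →
      (∀ i : ℕ, i < 2 ^ k' → a (2 ^ k' + i) = a (2 ^ k') + a i) ∧
      ((a (2 ^ k') : ℤ) = 2 * (a (2 ^ k' - 1) : ℤ) - r + 1))

/-- `x ≡ 2 p - q` modulo `N` for some `p ∈ X`, `q ∈ Y` with `q ≤ p`. -/
def CL (N : ℕ) (X Y : Finset ℕ) (x : ℤ) : Prop :=
  ∃ p ∈ X, ∃ q ∈ Y, q ≤ p ∧ (N : ℤ) ∣ x - (2 * (p : ℤ) - q)

/-- `x ≡ 2 p - q` modulo `N` for some `p ∈ X`, `q ∈ Y` with `q < p`. -/
def CS (N : ℕ) (X Y : Finset ℕ) (x : ℤ) : Prop :=
  ∃ p ∈ X, ∃ q ∈ Y, q < p ∧ (N : ℤ) ∣ x - (2 * (p : ℤ) - q)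

/-- The five covering relations of a pair `(B, E)`. -/
def Comp (N : ℕ) (B E : Finset ℕ) : ℕ → ℤ → Prop
  | 0, x => CL N E B x
  | 1, x => CS N E B x
  | 2, x => CL N B E x
  | 3, x => CS N B E x
  | _, x => CS N E E x

/-- The 15 bits of `τ` are guaranteed covering relations at `x - 1`, `x`, `x + 1`: the bit
`14 - 5 * j - k` stands for the relation `k` at `x - 1 + j`. -/
def Tri (N : ℕ) (B E : Finset ℕ) (τ : ℕ) (x : ℤ) : Prop :=
  ∀ j < 3, ∀ k < 5, τ.testBit (14 - 5 * j - k) = true → Comp N B E k (x - 1 + j)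

/-- The four states. -/
def st : ℕ → List ℕ
  | 0 => [2047, 6815, 21151, 21478, 21492, 31807, 31956, 32404, 32737]
  | 1 => [2047, 7156, 20703, 21151, 21492, 31807, 32390, 32404, 32737]
  | 2 => [2047, 7156, 8166, 20703, 21311, 21479, 31807, 32390, 32409, 32737]
  | _ => [2047, 6815, 21151, 21478, 21497, 31807, 31956, 32404, 32737]

/-- The pair `(B, E)` is in the state `q`. -/
def Inv (q N : ℕ) (B E : Finset ℕ) : Prop := ∀ x : ℤ, ∃ τ ∈ st q, Tri N B E τ x

/-- A good pair: two modular sets, the maximum `ω` of `B` is larger than all elements of `E`. -/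
structure GPair (N k ω : ℕ) (B E : Finset ℕ) : Prop where
  hB : ModSet N B k
  hE : ModSet N E k
  mem : ω ∈ B
  max : ∀ b ∈ B, b ≤ ω
  lt : ∀ e ∈ E, e < ω

/-- `r` is a good character. -/
def Good (r : ℤ) : Prop :=
  ∃ N k ω : ℕ, ∃ B E : Finset ℕ, ∃ q < 4, GPair N k ω B E ∧ Inv q N B E ∧ r = 2 * ω + 1 - N

/-- LEAF SEQ -/
def S_SEQ : Prop := ∀ (N k ω : ℕ) (A : Finset ℕ), ModSet N A k → ω ∈ A → (∀ a ∈ A, a ≤ ω) →
  Att (2 * ω + 1 - N)

/-- LEAF STEP -/
def S_STEP : Prop := ∀ r : ℤ, Good r → Good (3 * r - 2) ∧ Good (3 * r) ∧ Good (3 * r + 2)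

/-- computable check of modular sets (lists) -/
def chkMod (N : ℕ) (A : List ℕ) (k : ℕ) : Bool :=
  decide (0 < N) && A.all (fun x => decide (x < N)) && A.contains 0 && A.Pairwise (· < ·) &&
  decide (A.length = 2 ^ k) &&
  A.all (fun x => A.all (fun y => A.all (fun z =>
    !((x + z) % N == (2 * y) % N) || (x == y && y == z)))) &&
  (let m := (A.flatMap (fun y => (A.filter (fun z => decide (z < y))).map
      (fun z => (2 * y + N - z) % N))).foldl (fun a p => a ||| (1 <<< p)) 0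
   (List.range N).all (fun x => A.contains x || m.testBit x))

/-- LEAF CHK: soundness of the check -/
def S_CHKMOD : Prop := ∀ (N k : ℕ) (A : List ℕ), chkMod N A k = true → ModSet N A.toFinset k

/-- the mask of the values `2 p - q`, `q ≤ p` (`strict = false`) or `q < p` (`strict = true`) -/
def mask (N : ℕ) (strict : Bool) (X Y : List ℕ) : ℕ :=
  (X.flatMap (fun p => (Y.filter (fun q => if strict then decide (q < p) else decide (q ≤ p))).map
    (fun q => (2 * p + N - q) % N))).foldl (fun a v => a ||| (1 <<< v)) 0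

/-- the masks of the five relations -/
def masks (N : ℕ) (B E : List ℕ) : List ℕ :=
  [mask N false E B, mask N true E B, mask N false B E, mask N true B E, mask N true E E]

/-- computable check of the state -/
def chkInv (q N : ℕ) (B E : List ℕ) : Bool :=
  let M := masks N B E
  (List.range N).all (fun x => (st q).any (fun τ =>
    (List.range 3).all (fun j => (List.range 5).all (fun k =>
      !(τ.testBit (14 - 5 * j - k)) || (M.getD k 0).testBit ((x + N - 1 + j) % N)))))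

/-- LEAF CHKINV: soundness -/
def S_CHKINV : Prop := ∀ (q N k : ℕ) (B E : List ℕ), chkMod N B k = true → chkMod N E k = true →
  chkInv q N B E = true → Inv q N B.toFinset E.toFinset

end Pool.Agent.N965.ST
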